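import Pool.Agent.N24.RW.Clo

/-!
# From good residue classes over the rings `O[1/M]` to pronull exceptional sets

`O` is an order (in the application the ring of integers of a number field) with the integral basis `ω`.
Suppose that for each `M > 0` and each `η > 0` there is an ideal of `O[1/M]` with finite quotient and a set of
residue classes of vectors with proportion at least `1 - η` such that all vectors in these classes have
the property `P`. Then the set of the integral coordinate vectors without the property is pronull.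
-/

set_option autoImplicit false

namespace Pool.Agent.N140.RO

open Pool.Agent.N24.RW

/-- The vector over `O` with the coordinates `c` with respect to the basis `ω`. -/
noncomputable def vec {O J I : Type} [CommRing O] [Fintype J] (ω : Module.Basis J ℤ O)
    (c : I × J → ℤ) (i : I) : O := ∑ t, c (i, t) • ω t

/-- in a finite ring in which `M` is invertible the number of elements is prime to `M` -/
theorem coprime_card {S : Type} [CommRing S] [Finite S] {M : ℕ} (hM : IsUnit (M : S)) :
    (Nat.card S).Coprime M := by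
  rw [Nat.coprime_iff_gcd_eq_one]
  by_contra h
  obtain ⟨l, hl, hd⟩ := Nat.exists_prime_and_dvd h
  have : Fact l.Prime := ⟨hl⟩
  have : Fintype S := Fintype.ofFinite S
  have h1 : l ∣ Fintype.card S := by
    rw [← Nat.card_eq_fintype_card]
    exact hd.trans (Nat.gcd_dvd_left _ _)
  obtain ⟨x, hx⟩ := exists_prime_addOrderOf_dvd_card l h1
  have h2 : (l : S) * x = 0 := by
    rw [← nsmul_eq_mul, ← hx]
    exact addOrderOf_nsmul_eq_zero x
  obtain ⟨M', hM'⟩ := hd.trans (Nat.gcd_dvd_right _ _)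
  have h3 : (M : S) * x = 0 := by
    rw [hM', Nat.cast_mul, mul_comm (l : S), mul_assoc, h2, mul_zero]
  have h4 : x = 0 := by
    obtain ⟨u, hu⟩ := hM
    rw [← hu] at h3
    exact (Units.mul_right_eq_zero u).1 h3
  rw [h4, addOrderOf_zero] at hx
  exact hl.one_lt.ne hx

theorem card_cast {S : Type} [CommRing S] [Finite S] : ((Nat.card S : ℕ) : S) = 0 := by
  have : Fintype S := Fintype.ofFinite S
  rw [Nat.card_eq_fintype_card]
  exact Nat.cast_card_eq_zero S

section

theorem unit_M (O : Type) {R : Type} [CommRing O] [CommRing R] [Algebra O R] (M : ℕ)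
    [IsLocalization.Away (M : O) R] (A : Ideal R) : IsUnit ((M : ℕ) : R ⧸ A) := by
  have h1 : IsUnit (algebraMap O R (M : O)) := IsLocalization.Away.algebraMap_isUnit (M : O)
  have h2 := h1.map (Ideal.Quotient.mk A)
  simpa using h2

/-- the composite of `O → R → R / A` is surjective -/
theorem surj_O {O R : Type} [CommRing O] [CommRing R] [Algebra O R] (M : ℕ)
    [IsLocalization.Away (M : O) R] (A : Ideal R) [Finite (R ⧸ A)] :
    Function.Surjective fun x : O => Ideal.Quotient.mk A (algebraMap O R x) := by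
  intro y
  obtain ⟨z, rfl⟩ := Ideal.Quotient.mk_surjective y
  obtain ⟨k, a, ha⟩ := IsLocalization.Away.surj (M : O) z
  have hu := unit_M O M A
  have hc : (Nat.card (R ⧸ A)).Coprime M := coprime_card hu
  obtain ⟨M', hM'⟩ : ∃ M' : ℤ, ((M : ℤ) * M' : ℤ) ≡ 1 [ZMOD (Nat.card (R ⧸ A) : ℤ)] := by
    obtain ⟨u, hu⟩ := Int.mod_coprime (a := M) (b := Nat.card (R ⧸ A)) hc.symm
    exact ⟨u, hu⟩
  have h1 : ((M : ℤ) : R ⧸ A) * ((M' : ℤ) : R ⧸ A) = 1 := by
    obtain ⟨t, ht⟩ := hM'.symm.dvd
    have h2 : ((M : ℤ) * M' : ℤ) = 1 + (Nat.card (R ⧸ A) : ℤ) * t := by linarith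
    have h3 := congrArg (fun a : ℤ => (a : R ⧸ A)) h2
    simp only [Int.cast_mul, Int.cast_add, Int.cast_one, Int.cast_natCast, card_cast, zero_mul,
      add_zero] at h3
    simpa using h3
  refine ⟨a * ((M' : ℤ) : O) ^ k, ?_⟩
  have h4 := congrArg (Ideal.Quotient.mk A) ha
  simp only [map_mul, map_pow, map_natCast, map_intCast] at h4 ⊢
  rw [← h4]
  have h5 : ((M : ℕ) : R ⧸ A) * ((M' : ℤ) : R ⧸ A) = 1 := by simpa using h1
  calc Ideal.Quotient.mk A z * ((M : ℕ) : R ⧸ A) ^ k * ((M' : ℤ) : R ⧸ A) ^ k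
      = Ideal.Quotient.mk A z * (((M : ℕ) : R ⧸ A) * ((M' : ℤ) : R ⧸ A)) ^ k := by
        rw [mul_pow]; ring
    _ = Ideal.Quotient.mk A z := by rw [h5, one_pow, mul_one]

end

/-- the additive map `a ↦ a • s` on the residues modulo the number of elements -/
noncomputable def mulS {S : Type} [CommRing S] [Finite S] (s : S) : ZMod (Nat.card S) →+ S :=
  ZMod.lift (Nat.card S) ⟨zmultiplesHom S s, by
    rw [zmultiplesHom_apply, natCast_zsmul, nsmul_eq_mul, card_cast, zero_mul]⟩

theorem mulS_int {S : Type} [CommRing S] [Finite S] (s : S) (a : ℤ) :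
    mulS s (a : ZMod (Nat.card S)) = a • s := by
  rw [mulS, ZMod.lift_coe]
  rfl

section

variable {O J I : Type} [CommRing O] [Fintype J] (ω : Module.Basis J ℤ O)

/-- reduction of the coordinate vectors -/
noncomputable def redu {S : Type} [CommRing S] [Finite S] (π : O →+* S) :
    (I × J → ZMod (Nat.card S)) →+ (I → S) :=
  AddMonoidHom.mk' (fun z i => ∑ t, mulS (π (ω t)) (z (i, t))) (by
    intro x y
    funext i
    simp only [Pi.add_apply, map_add, Finset.sum_add_distrib])

theorem redu_int {S : Type} [CommRing S] [Finite S] (π : O →+* S) (c : I × J → ℤ) (i : I) :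
    redu ω π (fun q => (c q : ZMod (Nat.card S))) i = π (vec ω c i) := by
  show ∑ t, mulS (π (ω t)) (c (i, t) : ZMod (Nat.card S)) = _
  rw [vec, map_sum]
  refine Finset.sum_congr rfl fun t _ => ?_
  rw [mulS_int, map_zsmul]

theorem redu_surj {S : Type} [CommRing S] [Finite S] (π : O →+* S) (hπ : Function.Surjective π) :
    Function.Surjective (redu (I := I) ω π) := by
  intro z
  choose x hx using fun i => hπ (z i)
  refine ⟨fun q => ((ω.repr (x q.1) q.2 : ℤ) : ZMod (Nat.card S)), ?_⟩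
  funext i
  rw [redu_int ω π (fun q : I × J => ω.repr (x q.1) q.2) i, vec]
  show π (∑ t, ω.repr (x i) t • ω t) = z i
  rw [ω.sum_repr, hx]

variable [Fintype I]

theorem pro_of_classes {K : Type} [Field K] [Algebra O K] (P : (I → K) → Prop)
    (h : ∀ M : ℕ, 0 < M → ∀ η : ℝ, 0 < η → ∃ (R : Type) (_ : CommRing R) (_ : Algebra O R)
      (_ : Algebra R K) (_ : IsScalarTower O R K) (_ : IsLocalization.Away (M : O) R) (A : Ideal R),
      Finite (R ⧸ A) ∧ (1 - η) * (Nat.card (R ⧸ A) : ℝ) ^ Fintype.card I ≤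
        (({x : I → R ⧸ A | ∀ y : I → R, (∀ j, Ideal.Quotient.mk A (y j) = x j) →
          P (fun i => algebraMap R K (y i))}.ncard : ℕ) : ℝ)) :
    ProNull {c : I × J → ℤ | ¬ P (fun i => algebraMap O K (vec ω c i))} := by
  classical
  intro M hM ε hε
  obtain ⟨R, _, _, _, _, _, A, hfin, hA⟩ := h M hM ε hε
  have := hfin
  set S := R ⧸ A with hS
  set π : O →+* S := (Ideal.Quotient.mk A).comp (algebraMap O R) with hπ
  have hsurj : Function.Surjective π := surj_O M A
  set n := Nat.card S with hn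
  have hn0 : 0 < n := Nat.card_pos
  have : NeZero n := ⟨hn0.ne'⟩
  refine ⟨n, hn0, coprime_card (unit_M O M A), ?_⟩
  set G : Set (I → S) := {x : I → R ⧸ A | ∀ y : I → R, (∀ j, Ideal.Quotient.mk A (y j) = x j) →
          P (fun i => algebraMap R K (y i))} with hG
  have h1 := Clo.ncard_preimage (redu (I := I) ω π) (redu_surj ω π hsurj) Gᶜ
  have hcI : Nat.card (I → S) = n ^ Fintype.card I := by
    rw [Nat.card_fun, Nat.card_eq_fintype_card (α := I)]
  have hcZ : Nat.card (I × J → ZMod n) = n ^ Fintype.card (I × J) := Clo.card_pi n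
  have h2 : ((Gᶜ.ncard : ℕ) : ℝ) ≤ ε * (n : ℝ) ^ Fintype.card I := by
    have h3 : G.ncard + Gᶜ.ncard = n ^ Fintype.card I := by
      rw [Set.ncard_add_ncard_compl, hcI]
    have h4 : (G.ncard : ℝ) + (Gᶜ.ncard : ℝ) = (n : ℝ) ^ Fintype.card I := by exact_mod_cast h3
    linarith
  have h5 : ((fun (c : I × J → ℤ) (i : I × J) => (c i : ZMod n)) ''
      {c : I × J → ℤ | ¬ P (fun i => algebraMap O K (vec ω c i))}).ncard ≤
      ((redu (I := I) ω π) ⁻¹' Gᶜ).ncard := by
    refine Set.ncard_le_ncard ?_ (Set.toFinite _)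
    rintro _ ⟨c, hc, rfl⟩ hmem
    apply hc
    have h6 := hmem (fun i => algebraMap O R (vec ω c i)) (fun j => by
      rw [redu_int]
      rfl)
    simpa only [← IsScalarTower.algebraMap_apply] using h6
  rw [hcI, hcZ] at h1
  have h7 : (((redu (I := I) ω π) ⁻¹' Gᶜ).ncard : ℝ) * (n : ℝ) ^ Fintype.card I =
      (Gᶜ.ncard : ℝ) * (n : ℝ) ^ Fintype.card (I × J) := by exact_mod_cast h1
  have h8 : (0 : ℝ) < (n : ℝ) ^ Fintype.card I := by positivity
  have h9 : (0 : ℝ) < (n : ℝ) ^ Fintype.card (I × J) := by positivity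
  have h10 : (((redu (I := I) ω π) ⁻¹' Gᶜ).ncard : ℝ) ≤ ε * (n : ℝ) ^ Fintype.card (I × J) := by
    refine le_of_mul_le_mul_right ?_ h8
    rw [h7]
    calc (Gᶜ.ncard : ℝ) * (n : ℝ) ^ Fintype.card (I × J)
        ≤ (ε * (n : ℝ) ^ Fintype.card I) * (n : ℝ) ^ Fintype.card (I × J) :=
          mul_le_mul_of_nonneg_right h2 h9.le
      _ = ε * (n : ℝ) ^ Fintype.card (I × J) * (n : ℝ) ^ Fintype.card I := by ring
  refine le_trans ?_ h10
  exact_mod_cast h5

end

open NumberField

section
theorem finType (K : Type) [Field K] [NumberField K] (M : ℕ) (R : Type) [CommRing R]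
    [Algebra (𝓞 K) R] [IsLocalization.Away (M : 𝓞 K) R] : Algebra.FiniteType ℤ R := by
  have h3 : Algebra.FiniteType (𝓞 K) R := by
    have : Monoid.FG (Submonoid.powers (M : 𝓞 K)) := by
      rw [Monoid.fg_iff_submonoid_fg]
      exact Submonoid.powers_fg _
    exact IsLocalization.finiteType_of_monoid_fg (Submonoid.powers (M : 𝓞 K)) R
  have h4 : Algebra.FiniteType ℤ (𝓞 K) := inferInstance
  exact Algebra.FiniteType.trans h4 h3

theorem notField (K : Type) [Field K] [NumberField K] (M : ℕ) (R : Type) [CommRing R]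
    [Algebra (𝓞 K) R] [IsLocalization.Away (M : 𝓞 K) R] [IsDomain R] (hM : 0 < M) : ¬ IsField R := by
  have hM0 : (M : 𝓞 K) ≠ 0 := by exact_mod_cast hM.ne'
  have hle : Submonoid.powers (M : 𝓞 K) ≤ nonZeroDivisors (𝓞 K) :=
    powers_le_nonZeroDivisors_of_noZeroDivisors hM0
  have hinj : Function.Injective (algebraMap (𝓞 K) R) :=
    IsLocalization.injective (M := Submonoid.powers (M : 𝓞 K)) R hle
  have h9 : CharZero R := charZero_of_injective_algebraMap hinj
  intro hf
  obtain ⟨p, hp1, hp⟩ := Nat.exists_infinite_primes (M + 1)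
  have hp0 : ((p : ℕ) : R) ≠ 0 := by exact_mod_cast hp.ne_zero
  obtain ⟨b, hb⟩ := hf.mul_inv_cancel hp0
  obtain ⟨k, a, ha⟩ := IsLocalization.Away.surj (M : 𝓞 K) b
  have e1 : algebraMap (𝓞 K) R ((p : 𝓞 K) * a) = algebraMap (𝓞 K) R ((M : 𝓞 K) ^ k) := by
    rw [map_mul, ← ha, map_natCast, ← mul_assoc, hb, one_mul, map_pow]
  have e2 : (p : 𝓞 K) * a = (M : 𝓞 K) ^ k := hinj e1
  have hc : Nat.Coprime p (M ^ k) := by
    refine Nat.Coprime.pow_right k ?_
    rw [Nat.Prime.coprime_iff_not_dvd hp]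
    intro hd
    have := Nat.le_of_dvd hM hd
    omega
  have hc' : IsCoprime (p : ℤ) ((M ^ k : ℕ) : ℤ) := Nat.isCoprime_iff_coprime.2 hc
  obtain ⟨u, v, huv⟩ := hc'
  have e3 : (p : 𝓞 K) * ((u : 𝓞 K) + (v : 𝓞 K) * a) = 1 := by
    have e4 := congrArg (fun z : ℤ => (z : 𝓞 K)) huv
    push_cast at e4
    rw [← e4]
    linear_combination (v : 𝓞 K) * e2
  have hun : IsUnit (algebraMap ℤ (𝓞 K) (p : ℤ)) := by
    refine IsUnit.of_mul_eq_one ((u : 𝓞 K) + (v : 𝓞 K) * a) ?_
    simpa using e3
  have hn := hun.map (Algebra.norm ℤ)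
  rw [Algebra.norm_algebraMap, isUnit_pow_iff (Module.finrank_pos (R := ℤ) (M := 𝓞 K)).ne'] at hn
  have := Int.isUnit_iff_natAbs_eq.1 hn
  have h10 : p = 1 := by simpa using this
  exact hp.one_lt.ne' h10

end

theorem ring_facts (K : Type) [Field K] [NumberField K] (M : ℕ) (hM : 0 < M) :
    ∃ (R : Type) (_ : CommRing R) (_ : IsDomain R) (_ : IsIntegrallyClosed R)
      (_ : Algebra.FiniteType ℤ R) (_ : Algebra (NumberField.RingOfIntegers K) R) (_ : Algebra R K)
      (_ : IsFractionRing R K) (_ : IsScalarTower (NumberField.RingOfIntegers K) R K)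
      (_ : IsLocalization.Away (M : NumberField.RingOfIntegers K) R), ¬ IsField R ∧ (2 : R) ≠ 0 := by
  have hM0 : (M : 𝓞 K) ≠ 0 := by exact_mod_cast hM.ne'
  have hle : Submonoid.powers (M : 𝓞 K) ≤ nonZeroDivisors (𝓞 K) :=
    powers_le_nonZeroDivisors_of_noZeroDivisors hM0
  let R := Localization.Away (M : 𝓞 K)
  have h1 : IsDomain R := IsLocalization.isDomain_localization hle
  have h2 : IsDedekindDomain R := IsLocalization.isDedekindDomain (𝓞 K) hle R
  have h5 := finType K M R
  have hu : ∀ y : Submonoid.powers (M : 𝓞 K), IsUnit (algebraMap (𝓞 K) K y) := by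
    intro y
    rw [isUnit_iff_ne_zero]
    exact (map_ne_zero_iff _ (FaithfulSMul.algebraMap_injective (𝓞 K) K)).2
      (nonZeroDivisors.ne_zero (hle y.2))
  let h6 : Algebra R K := (IsLocalization.lift (M := Submonoid.powers (M : 𝓞 K)) hu).toAlgebra
  have h7 : IsScalarTower (𝓞 K) R K := IsScalarTower.of_algebraMap_eq fun x => by
    rw [RingHom.algebraMap_toAlgebra, IsLocalization.lift_eq]
  have h8 : IsFractionRing R K :=
    IsFractionRing.isFractionRing_of_isDomain_of_isLocalization (Submonoid.powers (M : 𝓞 K)) R K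
  have h9 : CharZero R := charZero_of_injective_algebraMap (FaithfulSMul.algebraMap_injective (𝓞 K) R)
  exact ⟨R, inferInstance, h1, inferInstance, h5, inferInstance, h6, h8, h7, inferInstance,
    notField K M R hM, two_ne_zero⟩

end Pool.Agent.N140.RO
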