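import Pool.Agent.N24.RW.Main
import Pool.Agent.N24.RW.Orb
import Pool.Agent.N24.RW.Erg
import Pool.Agent.N140.RO.Sv

/-!
# One null set of words for all finite extensions
-/

set_option autoImplicit false

namespace Pool.Agent.N140.RO

open NumberField Pool.Agent.N24.RW MeasureTheory Filter Topology

theorem proNull_empty {ι : Type} [Fintype ι] : ProNull (∅ : Set (ι → ℤ)) := by
  intro M _ ε hε
  refine ⟨1, one_pos, Nat.coprime_one_left M, ?_⟩
  rw [Set.image_empty, Set.ncard_empty]
  simpa using hε.le

theorem proNull_biUnion {ι σ : Type} [Fintype ι] (T : Finset σ) (A : σ → Set (ι → ℤ))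
    (h : ∀ s ∈ T, ProNull (A s)) : ProNull (⋃ s ∈ T, A s) := by
  classical
  induction T using Finset.induction_on with
  | empty => simpa using proNull_empty
  | insert a T _ ih =>
    rw [Finset.set_biUnion_insert]
    exact Clo.union (h a (Finset.mem_insert_self _ _))
      (ih fun s hs => h s (Finset.mem_insert_of_mem hs))

theorem proNull_of {ι σ : Type} [Fintype ι] [Fintype σ] (A : σ → Set (ι → ℤ)) (B : Set (ι → ℤ))
    (h : ∀ s, ProNull (A s)) (hB : ∀ c ∈ B, ∃ s, c ∈ A s) : ProNull B := by
  refine Clo.mono ?_ (proNull_biUnion Finset.univ A fun s _ => h s)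
  intro c hc
  obtain ⟨s, hs⟩ := hB c hc
  exact Set.mem_iUnion₂.2 ⟨s, Finset.mem_univ _, hs⟩

theorem countable_algClosure (K : Type) [Field K] [NumberField K] :
    Countable (AlgebraicClosure K) := by
  have h1 : Algebra.IsAlgebraic ℚ (AlgebraicClosure K) :=
    Algebra.IsAlgebraic.trans ℚ K (AlgebraicClosure K)
  have h2 : Set.Countable {x : AlgebraicClosure K | IsAlgebraic ℚ x} := Algebraic.countable ℚ _
  have h3 : {x : AlgebraicClosure K | IsAlgebraic ℚ x} = Set.univ :=
    Set.eq_univ_of_forall fun x => h1.isAlgebraic x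
  rw [h3] at h2
  exact Set.countable_univ_iff.1 h2

/-- for almost every word, for all finite extensions at the same time -/
theorem ae_all {K : Type} [Field K] [NumberField K] {ι : Type} [Fintype ι] [DecidableEq ι]
    (h2 : 2 ≤ Fintype.card ι) (G : ∀ (E : Type) [Field E] [Algebra K E], (ι → ℤ) → Prop)
    (hG : ∀ (E : Type) [Field E] [NumberField E] [Algebra K E], ProNull {c | ¬ G E c})
    (W : Walk ι) (v : ι → ℤ) (hv : v ≠ 0) :
    ∀ᵐ w ∂(words W.m), ∀ E : IntermediateField K (AlgebraicClosure K), FiniteDimensional K E →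
      Tendsto (fun n : ℕ => (({i : ℕ | i < n ∧ ¬ G E (orb W v w i)}.ncard : ℕ) : ℝ) / (n : ℝ))
        atTop (𝓝 0) := by
  have := countable_algClosure K
  have h1 : ∀ S : Finset (AlgebraicClosure K), ∀ᵐ w ∂(words W.m),
      FiniteDimensional K (IntermediateField.adjoin K (S : Set (AlgebraicClosure K))) →
      Tendsto (fun n : ℕ => (({i : ℕ | i < n ∧
        ¬ G (IntermediateField.adjoin K (S : Set (AlgebraicClosure K))) (orb W v w i)}.ncard : ℕ) : ℝ) /
          (n : ℝ)) atTop (𝓝 0) := by
    intro S
    by_cases hfd : FiniteDimensional K (IntermediateField.adjoin K (S : Set (AlgebraicClosure K)))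
    · have hnf : NumberField (IntermediateField.adjoin K (S : Set (AlgebraicClosure K))) := by
        have : CharZero (IntermediateField.adjoin K (S : Set (AlgebraicClosure K))) :=
          charZero_of_injective_algebraMap (algebraMap K _).injective
        have : FiniteDimensional ℚ (IntermediateField.adjoin K (S : Set (AlgebraicClosure K))) :=
          FiniteDimensional.trans ℚ K _
        exact ⟨⟩
      have key := t_MAIN t_ORB t_ERG ι h2 W v hv _
        (hG (IntermediateField.adjoin K (S : Set (AlgebraicClosure K))))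
      filter_upwards [key] with w hw _
      exact hw
    · exact Eventually.of_forall fun w h => absurd h hfd
  filter_upwards [ae_all_iff.2 h1] with w hw E hE
  obtain ⟨S, hS⟩ : E.FG := by
    refine IntermediateField.fg_of_fg_toSubalgebra E ?_
    rw [Subalgebra.fg_iff_finiteType]
    have : FiniteDimensional K E.toSubalgebra := hE
    infer_instance
  subst hS
  exact hw S hE

end Pool.Agent.N140.RO
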