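import Pool.Agent.N140.RO.Cnt

/-!
# One null set of words for all finite extensions and countably many data over each of them
-/

set_option autoImplicit false

namespace Pool.Agent.N140.RO

open NumberField Pool.Agent.N24.RW MeasureTheory Filter Topology

/-- for almost every word, for all finite extensions `E` and all data in `T E` at the same time -/
theorem ae_all_t {K : Type} [Field K] [NumberField K] {ι : Type} [Fintype ι] [DecidableEq ι]
    (h2 : 2 ≤ Fintype.card ι) (T : ∀ (E : Type) [Field E], Type)
    (hT : ∀ (E : Type) [Field E], Countable E → Countable (T E))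
    (G : ∀ (E : Type) [Field E] [Algebra K E], T E → (ι → ℤ) → Prop)
    (hG : ∀ (E : Type) [Field E] [NumberField E] [Algebra K E] (t : T E), ProNull {c | ¬ G E t c})
    (W : Walk ι) (v : ι → ℤ) (hv : v ≠ 0) :
    ∀ᵐ w ∂(words W.m), ∀ E : IntermediateField K (AlgebraicClosure K), FiniteDimensional K E →
      ∀ t : T E, Tendsto (fun n : ℕ =>
        (({i : ℕ | i < n ∧ ¬ G E t (orb W v w i)}.ncard : ℕ) : ℝ) / (n : ℝ)) atTop (𝓝 0) := by
  have := countable_algClosure K
  have h1 : ∀ S : Finset (AlgebraicClosure K), ∀ᵐ w ∂(words W.m),
      FiniteDimensional K (IntermediateField.adjoin K (S : Set (AlgebraicClosure K))) →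
      ∀ t : T (IntermediateField.adjoin K (S : Set (AlgebraicClosure K))),
      Tendsto (fun n : ℕ => (({i : ℕ | i < n ∧
        ¬ G (IntermediateField.adjoin K (S : Set (AlgebraicClosure K))) t (orb W v w i)}.ncard : ℕ) : ℝ) /
          (n : ℝ)) atTop (𝓝 0) := by
    intro S
    by_cases hfd : FiniteDimensional K (IntermediateField.adjoin K (S : Set (AlgebraicClosure K)))
    · have hnf : NumberField (IntermediateField.adjoin K (S : Set (AlgebraicClosure K))) := by
        have : CharZero (IntermediateField.adjoin K (S : Set (AlgebraicClosure K))) :=
          charZero_of_injective_algebraMap (algebraMap K _).injective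
        have : FiniteDimensional ℚ (IntermediateField.adjoin K (S : Set (AlgebraicClosure K))) :=
          FiniteDimensional.trans ℚ K _
        exact ⟨⟩
      have hc : Countable (IntermediateField.adjoin K (S : Set (AlgebraicClosure K))) :=
        inferInstance
      have hcT := hT (IntermediateField.adjoin K (S : Set (AlgebraicClosure K))) hc
      have key : ∀ t : T (IntermediateField.adjoin K (S : Set (AlgebraicClosure K))),
          AlmostNever W v {c | ¬ G (IntermediateField.adjoin K (S : Set (AlgebraicClosure K))) t c} :=
        fun t => t_MAIN t_ORB t_ERG ι h2 W v hv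
          {c | ¬ G (IntermediateField.adjoin K (S : Set (AlgebraicClosure K))) t c}
          (hG (IntermediateField.adjoin K (S : Set (AlgebraicClosure K))) t)
      have key2 := ae_all_iff.2 key
      filter_upwards [key2] with w hw _ t
      exact hw t
    · exact Eventually.of_forall fun w h => absurd h hfd
  filter_upwards [ae_all_iff.2 h1] with w hw E hE
  obtain ⟨S, hS⟩ : E.FG := by
    refine IntermediateField.fg_of_fg_toSubalgebra E ?_
    rw [Subalgebra.fg_iff_finiteType]
    have : FiniteDimensional K E.toSubalgebra := hE
    infer_instance
  subst hS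
  intro t
  exact hw S hE t

end Pool.Agent.N140.RO
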