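import Pool.Agent.N24.RW.Clo
import Pool.Agent.N24.RW.Crit
import Pool.Agent.H637R2.Leo.Split
import Pool.Agent.N140.RO.Tr

/-!
# Pronull sets from conditions at primes of degree one of an extension field, avoiding one element

`K` is a number field with the integral basis `ω`, `E` an extension, `Ev P` a set of vectors over the residue
field of each maximal ideal `P` of the ring of integers of `E`, with proportion at least `δ > 0` for large
residue fields of odd characteristic. The coordinate vectors over `K` which are in `Ev P` for no `P` are a pronull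
set. Proof: the primes of `E` of degree one (`Pool.Agent.H637R2.Leo.exists_hom`).
-/

set_option autoImplicit false

namespace Pool.Agent.N140.RO.Two2

open NumberField Pool.Agent.N24.RW

/-- the large maximal ideals of odd residue characteristic which do not contain `c₀` -/
def Big (E : Type) [Field E] (B : ℕ) (c₀ : 𝓞 E) : Set (Ideal (𝓞 E)) :=
  {P | P ∈ {Q : Ideal (𝓞 E) | Q.IsMaximal ∧ Finite (𝓞 E ⧸ Q) ∧ B ≤ Nat.card (𝓞 E ⧸ Q) ∧
    (2 : 𝓞 E) ∉ Q} ∧ c₀ ∉ P}

section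

variable {K E : Type} [Field K] [Field E] [Algebra K E] {J I : Type} [Fintype J]
  (ω : Module.Basis J ℤ (𝓞 K)) (B : ℕ) (c₀ : 𝓞 E) (Ev : ∀ P : Ideal (𝓞 E), Set (I → 𝓞 E ⧸ P))

/-- the residues modulo `p` of coordinate vectors in `Ev P` for some `P` over `p` -/
def Om (p : ℕ) : Set (I × J → ZMod p) :=
  {z | ∃ P ∈ Big E B c₀, (p : 𝓞 E) ∈ P ∧ (fun i => Ideal.Quotient.mk P (algebraMap (𝓞 K) (𝓞 E)
    (vec ω (fun q => ((z q).val : ℤ)) i))) ∈ Ev P}

theorem mk_vec_eq {p : ℕ} {P : Ideal (𝓞 E)} (hp : (p : 𝓞 E) ∈ P) {c c' : I × J → ℤ}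
    (h : ∀ q, (c q : ZMod p) = (c' q : ZMod p)) (i : I) :
    Ideal.Quotient.mk P (algebraMap (𝓞 K) (𝓞 E) (vec ω c i)) =
      Ideal.Quotient.mk P (algebraMap (𝓞 K) (𝓞 E) (vec ω c' i)) := by
  simp only [vec, map_sum, map_zsmul]
  refine Finset.sum_congr rfl fun t _ => ?_
  obtain ⟨a, ha⟩ := (ZMod.intCast_eq_intCast_iff_dvd_sub _ _ _).1 (h (i, t))
  have hp0 : ((p : ℕ) : 𝓞 E ⧸ P) = 0 := by
    rw [← map_natCast (Ideal.Quotient.mk P)]
    exact Ideal.Quotient.eq_zero_iff_mem.2 hp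
  have e : c' (i, t) = c (i, t) + (p : ℤ) * a := by linarith
  rw [e, add_smul, zsmul_eq_mul _ ((p : ℤ) * a), Int.cast_mul, Int.cast_natCast, hp0, zero_mul,
    zero_mul, add_zero]

/-- membership for the reduction of an integral vector -/
theorem of_mem_Om {p : ℕ} (hp : 0 < p) {c : I × J → ℤ}
    (h : (fun q => (c q : ZMod p)) ∈ Om ω B c₀ Ev p) :
    ∃ P ∈ Big E B c₀, (fun i => Ideal.Quotient.mk P (algebraMap (𝓞 K) (𝓞 E) (vec ω c i))) ∈ Ev P := by
  obtain ⟨P, hP, hpP, hz⟩ := h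
  refine ⟨P, hP, ?_⟩
  have : NeZero p := ⟨hp.ne'⟩
  convert hz using 2 with i
  refine mk_vec_eq ω hpP (fun q => ?_) _
  rw [Int.cast_natCast, ZMod.natCast_val, ZMod.cast_id', id]

variable [Fintype I]

theorem dens_Om {δ : ℝ} (hE : ∀ P ∈ Big E B c₀, δ * (Nat.card (𝓞 E ⧸ P) : ℝ) ^ Fintype.card I ≤
      ((Ev P).ncard : ℝ)) {p : ℕ} (P : Ideal (𝓞 E)) (hP : P ∈ Big E B c₀)
    (hpP : Nat.card (𝓞 E ⧸ P) = p) (hs : Function.Surjective fun a : ℤ => (a : 𝓞 E ⧸ P)) :
    δ * (p : ℝ) ^ Fintype.card (I × J) ≤ ((Om ω B c₀ Ev p).ncard : ℝ) := by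
  classical
  subst hpP
  have hfin := hP.1.2.1
  set S := 𝓞 E ⧸ P with hS
  have hn0 : 0 < Nat.card S := Nat.card_pos
  have : NeZero (Nat.card S) := ⟨hn0.ne'⟩
  set π : 𝓞 K →+* S := (Ideal.Quotient.mk P).comp (algebraMap (𝓞 K) (𝓞 E)) with hπ
  have hsurj : Function.Surjective π := by
    intro y
    obtain ⟨a, rfl⟩ := hs y
    exact ⟨(a : 𝓞 K), by simp⟩
  have h1 := Clo.ncard_preimage (redu (I := I) ω π) (redu_surj ω π hsurj) (Ev P)
  have hcI : Nat.card (I → S) = Nat.card S ^ Fintype.card I := by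
    rw [Nat.card_fun, Nat.card_eq_fintype_card (α := I)]
  have hcZ : Nat.card (I × J → ZMod (Nat.card S)) = Nat.card S ^ Fintype.card (I × J) :=
    Clo.card_pi _
  rw [hcI, hcZ] at h1
  have h2 : ((redu (I := I) ω π) ⁻¹' (Ev P)).ncard ≤ (Om ω B c₀ Ev (Nat.card S)).ncard := by
    refine Set.ncard_le_ncard ?_ (Set.toFinite _)
    intro z hz
    refine ⟨P, hP, ?_, ?_⟩
    · rw [← Ideal.Quotient.eq_zero_iff_mem, map_natCast]
      exact card_cast
    · convert Set.mem_preimage.1 hz using 1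
      funext i
      have h3 : z = fun q => (((z q).val : ℤ) : ZMod (Nat.card S)) := by
        funext q
        rw [Int.cast_natCast, ZMod.natCast_val, ZMod.cast_id', id]
      conv_rhs => rw [h3]
      rw [redu_int ω π (fun q => ((z q).val : ℤ)) i]
      rfl
  have h3 : (((redu (I := I) ω π) ⁻¹' (Ev P)).ncard : ℝ) * (Nat.card S : ℝ) ^ Fintype.card I =
      ((Ev P).ncard : ℝ) * (Nat.card S : ℝ) ^ Fintype.card (I × J) := by exact_mod_cast h1
  have h4 : (0 : ℝ) < (Nat.card S : ℝ) ^ Fintype.card I := by positivity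
  have h5 : (0 : ℝ) < (Nat.card S : ℝ) ^ Fintype.card (I × J) := by positivity
  have h6 : δ * (Nat.card S : ℝ) ^ Fintype.card (I × J) ≤
      (((redu (I := I) ω π) ⁻¹' (Ev P)).ncard : ℝ) := by
    refine le_of_mul_le_mul_right ?_ h4
    rw [h3]
    calc δ * (Nat.card S : ℝ) ^ Fintype.card (I × J) * (Nat.card S : ℝ) ^ Fintype.card I
        = (δ * (Nat.card S : ℝ) ^ Fintype.card I) * (Nat.card S : ℝ) ^ Fintype.card (I × J) := by ring
      _ ≤ ((Ev P).ncard : ℝ) * (Nat.card S : ℝ) ^ Fintype.card (I × J) :=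
          mul_le_mul_of_nonneg_right (hE P hP) h5.le
  exact h6.trans (by exact_mod_cast h2)

end

/-- large primes of degree one -/
theorem exists_big (E : Type) [Field E] [NumberField E] (B n : ℕ) (c₀ : 𝓞 E) (h0 : c₀ ≠ 0) :
    ∃ p : ℕ, p.Prime ∧ n < p ∧ ∃ P ∈ Big E B c₀, Nat.card (𝓞 E ⧸ P) = p ∧
      Function.Surjective fun a : ℤ => (a : 𝓞 E ⧸ P) := by
  have hz : Ideal.absNorm (Ideal.span {c₀}) ≠ 0 := by
    rw [Ne, Ideal.absNorm_eq_zero_iff, Ideal.span_singleton_eq_bot]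
    exact h0
  obtain ⟨q, hq, hqN, ⟨φ⟩⟩ := Pool.Agent.H637R2.Leo.exists_hom E
    (2 * B.factorial * n.factorial * Ideal.absNorm (Ideal.span {c₀})) (by positivity)
  have : Fact q.Prime := ⟨hq⟩
  have hs : Function.Surjective φ := by
    intro x
    obtain ⟨a, rfl⟩ := ZMod.intCast_surjective x
    exact ⟨(a : 𝓞 E), map_intCast φ a⟩
  have e := RingHom.quotientKerEquivOfSurjective hs
  have hc : Nat.card (𝓞 E ⧸ RingHom.ker φ) = q := by
    rw [Nat.card_congr e.toEquiv, Nat.card_zmod]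
  have hfin : Finite (𝓞 E ⧸ RingHom.ker φ) := Finite.of_equiv _ e.toEquiv.symm
  have h2 : ¬ q ∣ 2 := fun h => hqN (((h.mul_right _).mul_right _).mul_right _)
  have hB : B < q := by
    by_contra hle
    push Not at hle
    exact hqN ((((Nat.dvd_factorial hq.pos hle).mul_left 2).mul_right _).mul_right _)
  have hn : n < q := by
    by_contra hle
    push Not at hle
    exact hqN (((Nat.dvd_factorial hq.pos hle).mul_left _).mul_right _)
  have hc0 : c₀ ∉ RingHom.ker φ := by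
    intro h
    apply hqN
    refine Dvd.dvd.mul_left ?_ _
    have h1 : ((Ideal.absNorm (Ideal.span {c₀}) : ℕ) : 𝓞 E) ∈ Ideal.span {c₀} := Ideal.absNorm_mem _
    obtain ⟨y, hy⟩ := Ideal.mem_span_singleton.1 h1
    rw [← ZMod.natCast_eq_zero_iff, ← map_natCast φ, hy, map_mul, RingHom.mem_ker.1 h, zero_mul]
  refine ⟨q, hq, hn, RingHom.ker φ, ⟨⟨RingHom.ker_isMaximal_of_surjective φ hs, hfin, ?_, ?_⟩, hc0⟩, hc, ?_⟩
  · rw [hc]; exact hB.le
  · rw [RingHom.mem_ker, map_ofNat]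
    intro h
    apply h2
    rw [← ZMod.natCast_eq_zero_iff]
    exact_mod_cast h
  · intro y
    obtain ⟨a, ha⟩ := ZMod.intCast_surjective (e y)
    refine ⟨a, e.injective ?_⟩
    simp only [map_intCast, ha]

/-- **The sieve.** -/
theorem pro_sieve (hC : S_CRIT) {K E : Type} [Field K] [Field E] [NumberField E] [Algebra K E]
    {J I : Type} [Fintype J] [Fintype I] (ω : Module.Basis J ℤ (𝓞 K)) (B : ℕ) {c₀ : 𝓞 E}
    (h₀ : c₀ ≠ 0) (Ev : ∀ P : Ideal (𝓞 E), Set (I → 𝓞 E ⧸ P)) {δ : ℝ} (hδ : 0 < δ)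
    (hE : ∀ P ∈ Big E B c₀, δ * (Nat.card (𝓞 E ⧸ P) : ℝ) ^ Fintype.card I ≤ ((Ev P).ncard : ℝ)) :
    ProNull {c : I × J → ℤ | ∀ P ∈ Big E B c₀,
      (fun i => Ideal.Quotient.mk P (algebraMap (𝓞 K) (𝓞 E) (vec ω c i))) ∉ Ev P} := by
  classical
  let Has : ℕ → Prop := fun p => ∃ P ∈ Big E B c₀, Nat.card (𝓞 E ⧸ P) = p ∧
      Function.Surjective fun a : ℤ => (a : 𝓞 E ⧸ P)
  let w : ℕ → ℝ := fun p => if Has p then δ else 0
  have hw0 : ∀ p, 0 ≤ w p := fun p => by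
    show (0 : ℝ) ≤ if Has p then δ else 0
    split_ifs
    · exact hδ.le
    · exact le_rfl
  have key := hC (I × J) (fun p => p) (fun p hp => hp.one_lt.le)
    (fun p p' hp hp' h => (Nat.coprime_primes hp hp').2 h) (fun p => Om ω B c₀ Ev p) 0 w hw0 ?_ ?_
  · refine Clo.mono ?_ key
    intro c hc p hp h0 hmem
    obtain ⟨P, hP, h⟩ := of_mem_Om ω B c₀ Ev hp.pos hmem
    exact hc P hP h
  · intro hsum
    have h1 := hsum.tendsto_cofinite_zero
    rw [Nat.cofinite_eq_atTop] at h1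
    have h2 := (tendsto_order.1 h1).2 δ hδ
    obtain ⟨n, hn⟩ := Filter.eventually_atTop.1 h2
    obtain ⟨p, hp, hnp, hP⟩ := exists_big E B n c₀ h₀
    have h3 := hn p hnp.le
    rw [if_pos hp] at h3
    have h4 : w p = δ := if_pos hP
    rw [h4] at h3
    exact lt_irrefl _ h3
  · intro p hp _
    by_cases h : Has p
    · obtain ⟨P, hP, hc, hs⟩ := h
      have h4 : w p = δ := if_pos ⟨P, hP, hc, hs⟩
      rw [h4]
      exact dens_Om ω B c₀ Ev hE P hP hc hs
    · have h4 : w p = 0 := if_neg h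
      rw [h4, zero_mul]
      positivity

end Pool.Agent.N140.RO.Two2
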