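import Mathlib
import Pool.Agent.N181.TA.Main
import Pool.Agent.N140.RO.Sv2

/-!
# Pullbacks of rational elliptic surfaces with a section of order two: the good pairs and their local
# criterion

The definitions and the proof that the local criterion implies goodness are those of helper181
(`MP_1bad5e_ag.RationalSurfacePullbacks`).
-/

set_option autoImplicit false

namespace Pool.Agent.N140.RO.Pb

open Polynomial Pool.Agent.TH115.GD Pool.Agent.N181 Pool.Agent.N181.P3 Pool.Agent.N181.P9
  Pool.Agent.N181.TA Filter Topology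
open Pool.Agent.N181.P8 (TateQ)
open scoped Classical

/-- A rational elliptic surface `y² = x (x² + a x + b)` with a section of order two, `b` and `a² - 4 b` not
constants times squares, whose finite places of bad reduction are rational. -/
structure Base {k : Type} [Field k] (a b : k[X]) : Prop where
  rat : RatBase2 a b
  spl : (b * (a ^ 2 - 4 * b)).Splits

/-- The polynomial over `k` with the coefficients `c`. -/
noncomputable def poly {R : Type} [CommRing R] (k : Type) [Field k] [Algebra R k] {r : ℕ}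
    (c : Fin r → R) : k[X] :=
  ∑ j : Fin r, C (algebraMap R k (c j)) * X ^ (j : ℕ)

/-- The pairs of coefficient vectors of polynomials of degree at most `n`. -/
abbrev Pairs (n : ℕ) (R : Type) : Type := (Fin (n + 1) → R) × (Fin (n + 1) → R)

/-- The conclusion over `L` (`L'` is a separable closure of `L`, `K = L(t)`, `F = L'(t)`), for the
pullback of the base `(a, b)` by `q / r`. -/
def HoldsOver {k : Type} [Field k] (a b q r : k[X]) (L L' K F : Type) [Field L] [Field L']
    [Algebra L L'] [Field K] [Algebra L[X] K] [Field F] [Algebra L'[X] F] [IsFractionRing L'[X] F]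
    [Algebra K F] [Algebra k L] : Prop :=
  TateQ (F := F) 2 L' (surf2 K (q.map (algebraMap k L)) (r.map (algebraMap k L))
    (a.map (algebraMap k L)) (b.map (algebraMap k L)))

/-- The good pairs. -/
structure Good (k : Type) [Field k] (n : ℕ) (a b q r : k[X]) : Prop where
  cop : IsCoprime q r
  fib : ∀ f, Form2 a b q r f → Irreducible f ∧ f.natDegree = n ∧ f.Separable
  tate : ∀ (L L' K F : Type) [Field L] [Field L'] [Algebra L L'] [Field K] [Algebra L[X] K]
    [Field F] [Algebra L'[X] F] [IsFractionRing L'[X] F] [Algebra K F]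
    [Algebra k L] [Algebra k L'] [IsScalarTower k L L'], IsTower L L' K F →
      ∀ M : IntermediateField k L', Normal k M →
        (∀ x : L, IsSeparable k x → algebraMap L L' x ∈ M) →
        (∀ f, Form2 a b q r f → ¬ (f.map (algebraMap k M)).Splits) →
        HoldsOver a b q r L L' K F
  solv : ∀ (L L' K F : Type) [Field L] [Field L'] [Algebra L L'] [Field K] [Algebra L[X] K]
    [Field F] [Algebra L'[X] F] [IsFractionRing L'[X] F] [Algebra K F]
    [Algebra k L] [Algebra k L'] [IsScalarTower k L L'], IsTower L L' K F →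
      (∀ x : L, IsSeparable k x → Group.IsSolvable (minpoly k x).Gal) →
        HoldsOver a b q r L L' K F

/-- The roots of `b (a² - 4 b)` are among the `ρ_i / D`. -/
def RootsIn {R k : Type} [CommRing R] [Field k] [Algebra R k] (D : R) {μ : ℕ} (ρ : Fin μ → R)
    (a b : k[X]) : Prop :=
  ∀ ξ : k, (b * (a ^ 2 - 4 * b)).IsRoot ξ → ∃ i, algebraMap R k (ρ i) = algebraMap R k D * ξ

/-- The vector of all the coefficients. -/
def toV {n : ℕ} {R : Type} (z : Pairs n R) : Fin (n + 1) ⊕ Fin (n + 1) → R := Sum.elim z.1 z.2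

theorem toV_inj {n : ℕ} {R : Type} : Function.Injective (toV (n := n) (R := R)) := by
  rintro ⟨a, b⟩ ⟨a', b'⟩ h
  exact Prod.ext (funext fun j => congrFun h (Sum.inl j)) (funext fun j => congrFun h (Sum.inr j))

theorem toV_surj {n : ℕ} {R : Type} (y : Fin (n + 1) ⊕ Fin (n + 1) → R) :
    ∃ z : Pairs n R, toV z = y := by
  refine ⟨(fun j => y (Sum.inl j), fun j => y (Sum.inr j)), ?_⟩
  funext j
  rcases j with j | j <;> rfl

section good

open Pool.Agent.X243.Gen (FF FF_unit)
open Pool.Agent.Y160.T3 (bF)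

variable {k : Type} [Field k]

theorem good_of_FF {n : ℕ} {a b q r : k[X]} (hB : Base a b) (h5 : 5 ≤ n) (h2 : ¬ 2 ∣ n)
    (hco : IsCoprime q r) (hq : q.natDegree = n) (hr : r.natDegree ≤ n)
    (hf : ∀ f, Form2 a b q r f → FF n f) : Good k n a b q r where
  cop := hco
  fib := fun f h => ⟨(hf f h).1.1, (hf f h).1.2, (hf f h).2.1⟩
  tate := by
    intro L L' K F _ _ _ _ _ _ _ _ _ _ _ _ hT M hMn hM hns
    exact mainA hT hB.rat hB.spl h5 h2 hco hq hr hf M hM hns
  solv := by
    intro L L' K F _ _ _ _ _ _ _ _ _ _ _ _ hT hM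
    exact mainB hT hB.rat hB.spl h5 h2 hco hq hr hf hM

variable {R : Type} [CommRing R] [IsDomain R] [IsIntegrallyClosed R] [IsNoetherianRing R]
  [Algebra R k] [IsFractionRing R k]

theorem good_pair {n μ : ℕ} {a b : k[X]} (hB : Base a b) (h5 : 5 ≤ n) (h2 : ¬ 2 ∣ n)
    {D : R} (hD : D ≠ 0) {ρ : Fin μ → R} (hρ : RootsIn D ρ a b) {z : Pairs n R}
    (h : ∀ s : Option (Idx μ × Fin 3), ∃ p ∈ Zq R (2 * n + 2) D,
      (fun j => Ideal.Quotient.mk p (toV z j)) ∈
        Pool.Agent.X243.Gen.Lev n (cl D) (cm ρ) none (some none) s p) :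
    Good k n a b (poly k z.1) (poly k z.2) := by
  obtain ⟨f1, f2, f3, f4⟩ := linQ (k := k) (by omega : 3 ≤ n) (y := toV z) h
    (poly k z.1) (poly k z.2)
    (Pool.Agent.X243.Tate.bF_map (algebraMap R k) z.1).symm
    (Pool.Agent.X243.Tate.bF_map (algebraMap R k) z.2).symm
  have hd' : algebraMap R k D ≠ 0 := (map_ne_zero_iff _ (IsFractionRing.injective R k)).2 hD
  refine good_of_FF hB h5 h2 f4 f1.1.2 f2.1.2.le ?_
  rintro f (⟨ξ, hξ, rfl⟩ | ⟨-, -, rfl⟩)
  · obtain ⟨i, hi⟩ := hρ ξ hξ
    apply FF_unit hd'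
    have := f3 i
    have e : C (algebraMap R k D) * (poly k z.1 - C ξ * poly k z.2) =
        C (algebraMap R k D) * poly k z.1 - C (algebraMap R k (ρ i)) * poly k z.2 := by
      rw [hi, C_mul]; ring
    rw [e]
    exact this
  · exact f2

theorem good_poly {n μ : ℕ} {a b : k[X]} (hB : Base a b) (h5 : 5 ≤ n) (h2 : ¬ 2 ∣ n)
    {D : R} (hD : D ≠ 0) {ρ : Fin μ → R} (hρ : RootsIn D ρ a b) {z : Fin (n + 1) → R}
    (h : ∀ i : Fin μ × Fin 3, ∃ p ∈ Zq R (2 * n + 2) D, (fun j => Ideal.Quotient.mk p (z j)) ∈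
      Pool.Agent.X243.Gen.Aev n (fun _ => D) (fun i j => if j = 0 then -(ρ i) else 0) i p) :
    Good k n a b (poly k z) 1 := by
  have hd' : algebraMap R k D ≠ 0 := (map_ne_zero_iff _ (IsFractionRing.injective R k)).2 hD
  have key : ∀ ξ : k, (b * (a ^ 2 - 4 * b)).IsRoot ξ → FF n (poly k z - C ξ * 1) := by
    intro ξ hξ
    obtain ⟨i, hi⟩ := hρ ξ hξ
    apply FF_unit hd'
    have := affQ (k := k) (by omega : 3 ≤ n) h i (q := poly k z)
      (Pool.Agent.X243.Tate.bF_map (algebraMap R k) z).symm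
    have e : C (algebraMap R k D) * (poly k z - C ξ * 1) =
        C (algebraMap R k D) * poly k z - C (algebraMap R k (ρ i)) := by
      rw [hi, C_mul]; ring
    rw [e]
    exact this
  have hq : (poly k z).natDegree = n := by
    obtain ⟨ξ, hξ⟩ := exists_mult2 (hB.spl.of_dvd (mul_ne_zero hB.rat.hb0 hB.rat.hd0)
      (dvd_mul_right _ _)) hB.rat.cb
    have hroot : b.IsRoot ξ := by
      by_contra h0
      apply hξ
      rw [rootMultiplicity_eq_zero h0]
      exact dvd_zero 2
    have h1 := (key ξ (by rw [IsRoot.def, eval_mul, IsRoot.def.1 hroot, zero_mul])).1.2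
    rw [mul_one, natDegree_sub_C] at h1
    exact h1
  refine good_of_FF hB h5 h2 isCoprime_one_right hq (by rw [natDegree_one]; omega) ?_
  rintro f (⟨ξ, hξ, rfl⟩ | ⟨-, h0, -⟩)
  · exact key ξ hξ
  · exact absurd rfl h0

end good

/-- A common denominator of the roots. -/
theorem exists_roots {R k : Type} [CommRing R] [IsDomain R] [Field k] [Algebra R k]
    [IsFractionRing R k] {a b : k[X]} (hne : b * (a ^ 2 - 4 * b) ≠ 0) :
    ∃ (D : R) (μ : ℕ) (ρ : Fin μ → R), D ≠ 0 ∧ RootsIn D ρ a b := by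
  obtain ⟨D, hD⟩ := IsLocalization.exist_integer_multiples_of_finset (nonZeroDivisors R)
    ((b * (a ^ 2 - 4 * b)).roots.toFinset)
  have hD0 : (D : R) ≠ 0 := nonZeroDivisors.ne_zero D.2
  obtain ⟨m, e⟩ : ∃ m, m = ((b * (a ^ 2 - 4 * b)).roots.toFinset).card := ⟨_, rfl⟩
  let φ : Fin m ≃ {x // x ∈ (b * (a ^ 2 - 4 * b)).roots.toFinset} :=
    (finCongr e).trans ((b * (a ^ 2 - 4 * b)).roots.toFinset).equivFin.symm
  have hint : ∀ i : Fin m, ∃ c : R, algebraMap R k c = algebraMap R k (D : R) * (φ i).1 := by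
    intro i
    obtain ⟨c, hc⟩ := hD (φ i).1 (φ i).2
    refine ⟨c, hc.trans ?_⟩
    rw [Algebra.smul_def]
  choose ρ hρ using hint
  refine ⟨D, m, ρ, hD0, fun ξ hξ => ?_⟩
  have hmem : ξ ∈ (b * (a ^ 2 - 4 * b)).roots.toFinset := by
    rw [Multiset.mem_toFinset]
    exact (mem_roots hne).2 hξ
  refine ⟨φ.symm ⟨ξ, hmem⟩, ?_⟩
  rw [hρ, Equiv.apply_symm_apply]


end Pool.Agent.N140.RO.Pb
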