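import Mathlib
import Pool.Agent.TH115.GD.Defs
import Pool.Agent.X243.Gen.RkTwo
import Pool.Agent.N140.RO.Sv2

/-!
# A locus of elliptic surfaces of rank at least two: the good pairs and their local criterion

The definitions and the proof that the local criterion implies goodness are those of helper601
(`MP_1bad5e_ag.RankTwoLocus`).
-/

set_option autoImplicit false

namespace Pool.Agent.N140.RO.Rk

open Polynomial Pool.Agent.TH115.GD Filter Topology
open scoped Classical

/-- The polynomial over `k` with the coefficients `c`. -/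
noncomputable def poly {R : Type} [CommRing R] (k : Type) [Field k] [Algebra R k] {r : ℕ}
    (c : Fin r → R) : k[X] :=
  ∑ j : Fin r, C (algebraMap R k (c j)) * X ^ (j : ℕ)

/-- The polynomial `p = α q + β r`. -/
noncomputable def pp {k : Type} [Field k] (α β : k) (q r : k[X]) : k[X] := C α * q + C β * r

/-- The six polynomials `p ± q`, `p ± r`, `q ± r`. -/
def six {k : Type} [Field k] (α β : k) (q r : k[X]) : Set k[X] :=
  {pp α β q r + q, pp α β q r - q, pp α β q r + r, pp α β q r - r, q + r, q - r}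

/-- The curve `y² = x (x - (p² - q²)) (x - (p² - r²))` over `K = L(t)`. -/
noncomputable abbrev Ep {k : Type} [Field k] (L K : Type) [Field L] [Algebra k L] [Field K]
    [Algebra L[X] K] (α β : k) (q r : k[X]) : WeierstrassCurve K :=
  crv (algebraMap L[X] K ((pp α β q r ^ 2 - q ^ 2).map (algebraMap k L)))
    (algebraMap L[X] K ((pp α β q r ^ 2 - r ^ 2).map (algebraMap k L)))

/-- The pairs of coefficient vectors of polynomials of degree at most `N`. -/
abbrev Pairs (N : ℕ) (R : Type) : Type := (Fin (N + 1) → R) × (Fin (N + 1) → R)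

/-- The conclusions over `L` (`L'` is a separable closure of `L`, `K = L(t)`, `F = L'(t)`). -/
def HoldsOver {k : Type} [Field k] (α β : k) (q r : k[X]) (L L' K F : Type) [Field L] [Field L']
    [Algebra L L'] [Field K] [Algebra L[X] K] [Field F] [Algebra L'[X] F]
    [IsFractionRing L'[X] F] [Algebra K F] [Algebra k L] : Prop :=
  TateAtTwo (F := F) L' (Ep L K α β q r) ∧
    ∃ P : Fin 2 → Pt (Ep L K α β q r) K, LinearIndependent ℤ P

/-- The good pairs. -/
structure Good (k : Type) [Field k] (N : ℕ) (α β : k) (q r : k[X]) : Prop where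
  irr : ∀ f ∈ six α β q r, Irreducible f ∧ f.natDegree = N ∧ f.Separable
  cop : IsCoprime q r
  tate : ∀ (L L' K F : Type) [Field L] [Field L'] [Algebra L L'] [Field K] [Algebra L[X] K]
    [Field F] [Algebra L'[X] F] [IsFractionRing L'[X] F] [Algebra K F]
    [Algebra k L] [Algebra k L'] [IsScalarTower k L L'], IsTower L L' K F →
      ∀ M : IntermediateField k L', Normal k M →
        (∀ x : L, IsSeparable k x → algebraMap L L' x ∈ M) →
        (∀ f ∈ six α β q r, ¬ (f.map (algebraMap k M)).Splits) →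
        HoldsOver α β q r L L' K F
  solv : ∀ (L L' K F : Type) [Field L] [Field L'] [Algebra L L'] [Field K] [Algebra L[X] K]
    [Field F] [Algebra L'[X] F] [IsFractionRing L'[X] F] [Algebra K F]
    [Algebra k L] [Algebra k L'] [IsScalarTower k L L'], IsTower L L' K F →
      (∀ x : L, IsSeparable k x → Group.IsSolvable (minpoly k x).Gal) →
        HoldsOver α β q r L L' K F

/-- The vector of all the coefficients. -/
def toV {N : ℕ} {R : Type} (z : Pairs N R) : Fin (N + 1) ⊕ Fin (N + 1) → R := Sum.elim z.1 z.2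

theorem toV_inj {N : ℕ} {R : Type} : Function.Injective (toV (N := N) (R := R)) := by
  rintro ⟨a, b⟩ ⟨a', b'⟩ h
  exact Prod.ext (funext fun j => congrFun h (Sum.inl j)) (funext fun j => congrFun h (Sum.inr j))

theorem toV_surj {N : ℕ} {R : Type} (y : Fin (N + 1) ⊕ Fin (N + 1) → R) :
    ∃ z : Pairs N R, toV z = y := by
  refine ⟨(fun j => y (Sum.inl j), fun j => y (Sum.inr j)), ?_⟩
  funext j
  rcases j with j | j <;> rfl

open Pool.Agent.X243.Gen (fms FF rk_ext rk_solv) in
theorem good_of_FF {k : Type} [Field k] (h2 : (2 : k) ≠ 0) {α β μ : k} (hα : α ≠ 0) (hβ : β ≠ 0)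
    (hμ : μ ≠ 0) (hsq : ((α + β) ^ 2 - 1) * ((α - β) ^ 2 - 1) = μ ^ 2) {q r : k[X]} {N : ℕ}
    (hN : 5 ≤ N) (hodd : Odd N) (hf : ∀ f ∈ fms α β q r, FF N f) (hco : IsCoprime q r) :
    Good k N α β q r := by
  have e1 : ∀ L : Type, ∀ [Field L] [Algebra k L], ((pp α β q r ^ 2 - q ^ 2).map (algebraMap k L)) =
      (C (algebraMap k L α) * q.map (algebraMap k L) + C (algebraMap k L β) *
        r.map (algebraMap k L)) ^ 2 - (q.map (algebraMap k L)) ^ 2 := by
    intro L _ _
    simp only [pp, Polynomial.map_sub, Polynomial.map_pow, Polynomial.map_add, Polynomial.map_mul,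
      map_C]
  have e2 : ∀ L : Type, ∀ [Field L] [Algebra k L], ((pp α β q r ^ 2 - r ^ 2).map (algebraMap k L)) =
      (C (algebraMap k L α) * q.map (algebraMap k L) + C (algebraMap k L β) *
        r.map (algebraMap k L)) ^ 2 - (r.map (algebraMap k L)) ^ 2 := by
    intro L _ _
    simp only [pp, Polynomial.map_sub, Polynomial.map_pow, Polynomial.map_add, Polynomial.map_mul,
      map_C]
  refine ⟨fun f hf' => ⟨(hf f hf').1.1, (hf f hf').1.2, (hf f hf').2.1⟩, hco, ?_, ?_⟩
  · intro L L' K F _ _ _ _ _ _ _ _ _ _ _ _ hT M hMn hM hns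
    have key := rk_ext h2 hα hβ hμ hsq hN hodd hf hco hT M hMn hM hns rfl rfl rfl rfl rfl
    unfold HoldsOver
    unfold Ep
    rw [e1, e2]
    exact key
  · intro L L' K F _ _ _ _ _ _ _ _ _ _ _ _ hT hM
    have key := rk_solv h2 hα hβ hμ hsq hN hodd hf hco hT hM rfl rfl rfl rfl rfl
    unfold HoldsOver
    unfold Ep
    rw [e1, e2]
    exact key

theorem good_of {R k : Type} [CommRing R] [IsDomain R] [IsIntegrallyClosed R] [IsNoetherianRing R]
    [Field k] [Algebra R k] [IsFractionRing R k] (h2 : (2 : R) ≠ 0) {A B D : R} (hD : D ≠ 0)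
    {α β μ : k} (hA : α * algebraMap R k D = algebraMap R k A)
    (hB : β * algebraMap R k D = algebraMap R k B) (hα : α ≠ 0) (hβ : β ≠ 0) (hμ : μ ≠ 0)
    (hsq : ((α + β) ^ 2 - 1) * ((α - β) ^ 2 - 1) = μ ^ 2)
    {N b : ℕ} {c : R} (hN : 5 ≤ N) (hodd : Odd N) {z : Pairs N R}
    (h : ∀ s : Option (Fin 6 × Fin 3), ∃ p ∈ Pool.Agent.X243.Gen.Zc R b c,
      (fun j => Ideal.Quotient.mk p (toV z j)) ∈ Pool.Agent.X243.Gen.Lev N
        (Pool.Agent.X243.Gen.rl A D) (Pool.Agent.X243.Gen.rm B D) 4 5 s p) :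
    Good k N α β (poly k z.1) (poly k z.2) := by
  have h2k : (2 : k) ≠ 0 := by
    rw [← map_ofNat (algebraMap R k) 2]
    exact (map_ne_zero_iff _ (IsFractionRing.injective R k)).2 h2
  obtain ⟨h1, h3⟩ := Pool.Agent.X243.Gen.rk_good (k := k) hD hA hB (by omega : 3 ≤ N) h
    (poly k z.1) (poly k z.2)
    (Pool.Agent.X243.Tate.bF_map (algebraMap R k) z.1).symm
    (Pool.Agent.X243.Tate.bF_map (algebraMap R k) z.2).symm
  exact good_of_FF h2k hα hβ hμ hsq hN hodd h1 h3


end Pool.Agent.N140.RO.Rk
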