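import Mathlib
import Pool.Agent.TH115.GD.Defs
import Pool.Agent.TH115.ID.Defs
import Pool.Agent.X243.CD.Three
import Pool.Agent.X243.Gen.Main
import Pool.Agent.N601.PB.Hom
import Pool.Agent.N140.RO.Sv

/-!
# Elliptic surfaces with a section of order two: the good pairs and their local criterion

The definitions and the proof that the local criterion implies goodness are those of helper601
(`MP_17a657_ag.OrderTwoSections`).
-/

set_option autoImplicit false

namespace Pool.Agent.N140.RO.Two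

open Polynomial Pool.Agent.TH115.GD Pool.Agent.X243.CD Pool.Agent.W309 Filter Topology
open scoped Classical

/-- The polynomial over `k` with the coefficients `c`. -/
noncomputable def poly {R : Type} [CommRing R] (k : Type) [Field k] [Algebra R k] {r : ℕ}
    (c : Fin r → R) : k[X] :=
  ∑ j : Fin r, C (algebraMap R k (c j)) * X ^ (j : ℕ)

/-- The pairs of coefficient vectors of polynomials of degree at most `m` and `N`. -/
abbrev Pairs (m N : ℕ) (R : Type) : Type := (Fin (m + 1) → R) × (Fin (N + 1) → R)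

/-- The twist `y² = x (x² + c a x + c² b)` over `K = L(t)`, `a` and `b` polynomials over the subfield `k` of
`L`, `c` in `L`. -/
noncomputable abbrev Ec {k : Type} [Field k] {L : Type} (K : Type) [Field L] [Algebra k L] [Field K]
    [Algebra L[X] K] (a b : k[X]) (c : L) : WeierstrassCurve K :=
  crvT (algebraMap L[X] K (C c * a.map (algebraMap k L)))
    (algebraMap L[X] K (C (c ^ 2) * b.map (algebraMap k L)))

/-- The conclusions for all the twists by constants of `L` (`L'` is a separable closure of `L`,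
`K = L(t)`, `F = L'(t)`). -/
def HoldsOver {k : Type} [Field k] (a b : k[X]) (L L' K F : Type) [Field L] [Field L']
    [Algebra L L'] [Field K] [Algebra L[X] K] [IsFractionRing L[X] K] [Field F] [Algebra L'[X] F]
    [IsFractionRing L'[X] F] [Algebra K F] [Algebra k L] : Prop :=
  ∀ c : L, c ≠ 0 →
    TateAtTwo (F := F) L' (Ec K a b c) ∧
    Sha.PointsComplete (Ec K a b c) ∧
    (AddGroup.FG (Pt (Ec K a b c) K) → Finite (Pt (Ec K a b c) K)) ∧
    Sha.ShaTwoTrivial L[X] (Ec K a b c)

/-- The good pairs. -/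
structure Good (k : Type) [Field k] (N : ℕ) (a b : k[X]) : Prop where
  irrB : Irreducible b ∧ b.natDegree = N ∧ b.Separable
  irrD : Irreducible (a ^ 2 - 4 * b) ∧ (a ^ 2 - 4 * b).natDegree = N ∧ (a ^ 2 - 4 * b).Separable
  tate : ∀ (L L' K F : Type) [Field L] [Field L'] [Algebra L L'] [Field K] [Algebra L[X] K]
    [IsFractionRing L[X] K] [Field F] [Algebra L'[X] F] [IsFractionRing L'[X] F] [Algebra K F]
    [Algebra k L] [Algebra k L'] [IsScalarTower k L L'], IsTower L L' K F →
      ∀ M : IntermediateField k L', Normal k M →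
        (∀ x : L, IsSeparable k x → algebraMap L L' x ∈ M) →
        ¬ (b.map (algebraMap k M)).Splits → ¬ ((a ^ 2 - 4 * b).map (algebraMap k M)).Splits →
        HoldsOver a b L L' K F
  solv : ∀ (L L' K F : Type) [Field L] [Field L'] [Algebra L L'] [Field K] [Algebra L[X] K]
    [IsFractionRing L[X] K] [Field F] [Algebra L'[X] F] [IsFractionRing L'[X] F] [Algebra K F]
    [Algebra k L] [Algebra k L'] [IsScalarTower k L L'], IsTower L L' K F →
      (∀ x : L, IsSeparable k x → Group.IsSolvable (minpoly k x).Gal) →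
        HoldsOver a b L L' K F

/-- The vector of all the coefficients. -/
def toV {m N : ℕ} {R : Type} (z : Pairs m N R) : Fin (m + 1) ⊕ Fin (N + 1) → R := Sum.elim z.1 z.2

theorem toV_inj {m N : ℕ} {R : Type} : Function.Injective (toV (m := m) (N := N) (R := R)) := by
  rintro ⟨a, b⟩ ⟨a', b'⟩ h
  exact Prod.ext (funext fun j => congrFun h (Sum.inl j)) (funext fun j => congrFun h (Sum.inr j))

theorem toV_surj {m N : ℕ} {R : Type} (y : Fin (m + 1) ⊕ Fin (N + 1) → R) :
    ∃ z : Pairs m N R, toV z = y := by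
  refine ⟨(fun j => y (Sum.inl j), fun j => y (Sum.inr j)), ?_⟩
  funext j
  rcases j with j | j <;> rfl

section holds

open Pool.Agent.X243.Gen (FF three_gen solvM solvM_normal mem_solvM solvM_not_splits)

variable {k : Type} [Field k]

theorem notNorm_C {p : k[X]} (h : NotNorm p) {u : k} (hu : u ≠ 0) : NotNorm (C u * p) := by
  intro w D U V e
  refine h (u⁻¹ * w) D U V ?_
  have h1 : C u⁻¹ * C u = (1 : k[X]) := by rw [← C_mul, inv_mul_cancel₀ hu, C_1]
  calc p = C u⁻¹ * (C u * p) := by rw [← mul_assoc, h1, one_mul]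
    _ = _ := by rw [e, C_mul, mul_assoc]

/-- A group which is finitely generated and equal to the doubles plus the points of order two is
finite. -/
theorem finite_of_complete {A : Type} [AddCommGroup A] (h : ∀ P : A, ∃ Q T : A, T + T = 0 ∧
    P = Q + Q + T) (hfg : AddGroup.FG A) : Finite A := by
  let H : AddSubgroup A :=
    { carrier := {T | T + T = 0}
      zero_mem' := add_zero 0
      add_mem' := fun {x y} hx hy => by
        show x + y + (x + y) = 0
        rw [add_add_add_comm, show x + x = 0 from hx, show y + y = 0 from hy, add_zero]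
      neg_mem' := fun {x} hx => by
        show -x + -x = 0
        rw [← neg_add, show x + x = 0 from hx, neg_zero] }
  obtain ⟨r, hr, hr'⟩ := Pool.Agent.N601.PB.odd_exponent H hfg (fun P => by
    obtain ⟨Q, T, hT, e⟩ := h P
    exact ⟨Q, T, hT, e⟩)
  have htor : IsAddTorsion A := by
    intro P
    rw [isOfFinAddOrder_iff_nsmul_eq_zero]
    refine ⟨2 * r, Nat.mul_pos two_pos hr.pos, ?_⟩
    have h3 : r • P + r • P = 0 := hr' P
    rw [two_mul, add_nsmul, h3]
  have : AddGroup.FG A := hfg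
  exact AddCommGroup.finite_of_fg_isAddTorsion A htor

theorem tate_c {L L' K F : Type} [Field L] [Field L'] [Algebra L L'] [Field K]
    [Algebra L[X] K] [Field F] [Algebra L'[X] F] [IsFractionRing L'[X] F]
    [Algebra K F] (hT : IsTower L L' K F) (h2 : (2 : L) ≠ 0) {A p q : L[X]} {w : L} (hw : w ≠ 0)
    (hp : Irreducible p) (hq : Irreducible q) (sp : p.Separable) (sq : q.Separable)
    (e : A ^ 2 - 4 * (C w * p) = C w * q) (n1 : NotNorm (C w * p))
    (n2 : NotNorm (A ^ 2 - 4 * (C w * p))) :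
    TateAtTwo (F := F) L' (crvT (algebraMap L[X] K A) (algebraMap L[X] K (C w * p))) :=
  genericT hT h2 (u := w) (v := w) (m := 0) (n := 0) (π := p) (ρ := q) hw hw hp hq sp sq
    (by rw [mul_zero, zero_add, pow_one]) (by rw [e, mul_zero, zero_add, pow_one]) n1 n2

theorem holds_ext (h2 : (2 : k) ≠ 0) {a b : k[X]} {N : ℕ} (hN : 5 ≤ N) (hb : FF N b)
    (hd : FF N (a ^ 2 - 4 * b)) {L L' K F : Type} [Field L] [Field L'] [Algebra L L'] [Field K]
    [Algebra L[X] K] [IsFractionRing L[X] K] [Field F] [Algebra L'[X] F] [IsFractionRing L'[X] F]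
    [Algebra K F] [Algebra k L] [Algebra k L'] [IsScalarTower k L L'] (hT : IsTower L L' K F)
    (M : IntermediateField k L') (hMn : Normal k M)
    (hM : ∀ x : L, IsSeparable k x → algebraMap L L' x ∈ M)
    (h1 : ¬ (b.map (algebraMap k M)).Splits)
    (h3 : ¬ ((a ^ 2 - 4 * b).map (algebraMap k M)).Splits) :
    HoldsOver a b L L' K F := by
  intro c hc
  have hsc : IsSepClosure L L' := hT.sep
  have h2L : (2 : L) ≠ 0 := by
    rw [← map_ofNat (algebraMap k L) 2]
    exact (map_ne_zero_iff _ (algebraMap k L).injective).2 h2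
  have hc2 : c ^ 2 ≠ 0 := pow_ne_zero 2 hc
  obtain ⟨g1, g2, -⟩ := cd_ext h2 hN hb hd M hMn hM h1 h3 K c hc (Ec K a b c) rfl
  have g3 : AddGroup.FG (Pt (Ec K a b c) K) → Finite (Pt (Ec K a b c) K) := fun hfg =>
    finite_of_complete (A := Pt (Ec K a b c) K) g1 hfg
  refine ⟨?_, g1, g3, g2⟩
  obtain ⟨i1, n1⟩ := three_gen hb.2.1 (by rw [hb.1.2]; exact hN) hb.2.2 h2 L L' M hM h1
  obtain ⟨i2, n2⟩ := three_gen hd.2.1 (by rw [hd.1.2]; exact hN) hd.2.2 h2 L L' M hM h3
  have e : (C c * a.map (algebraMap k L)) ^ 2 - 4 * (C (c ^ 2) * b.map (algebraMap k L)) =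
      C (c ^ 2) * (a ^ 2 - 4 * b).map (algebraMap k L) := by
    rw [Polynomial.map_sub, Polynomial.map_pow, Polynomial.map_mul, Polynomial.map_ofNat, C_pow]
    ring
  have s1 : (b.map (algebraMap k L)).Separable := hb.2.1.map
  have s2 : ((a ^ 2 - 4 * b).map (algebraMap k L)).Separable := hd.2.1.map
  have q1 : NotNorm (C (c ^ 2) * b.map (algebraMap k L)) := notNorm_C n1 hc2
  have q2 : NotNorm ((C c * a.map (algebraMap k L)) ^ 2 - 4 * (C (c ^ 2) * b.map (algebraMap k L))) := by
    rw [e]; exact notNorm_C n2 hc2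
  exact tate_c hT h2L hc2 i1 i2 s1 s2 e q1 q2

theorem holds_solv (h2 : (2 : k) ≠ 0) {a b : k[X]} {N : ℕ} (hN : 5 ≤ N) (hb : FF N b)
    (hd : FF N (a ^ 2 - 4 * b)) {L L' K F : Type} [Field L] [Field L'] [Algebra L L'] [Field K]
    [Algebra L[X] K] [IsFractionRing L[X] K] [Field F] [Algebra L'[X] F] [IsFractionRing L'[X] F]
    [Algebra K F] [Algebra k L] [Algebra k L'] [IsScalarTower k L L'] (hT : IsTower L L' K F)
    (hM : ∀ x : L, IsSeparable k x → Group.IsSolvable (minpoly k x).Gal) :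
    HoldsOver a b L L' K F := by
  have hsc : IsSepClosure L L' := hT.sep
  have : IsSepClosed L' := IsSepClosure.sep_closed L
  exact holds_ext h2 hN hb hd hT (solvM k L') (solvM_normal L')
    (fun x hx => mem_solvM hx (hM x hx))
    (solvM_not_splits L' hb.2.1 (by rw [hb.1.2]; exact hN) hb.2.2)
    (solvM_not_splits L' hd.2.1 (by rw [hd.1.2]; exact hN) hd.2.2)

end holds

theorem good_of {R k : Type} [CommRing R] [IsDomain R] [IsIntegrallyClosed R] [IsNoetherianRing R]
    [Field k] [Algebra R k] [IsFractionRing R k] (h2 : (2 : R) ≠ 0)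
    {m N B : ℕ} (hmN : 2 * m ≤ N) (hN : 5 ≤ N) {z : Pairs m N R}
    (h : ∀ s : Bool × Fin 3, ∃ p ∈ Pool.Agent.X243.Gen.Zg R B,
      (fun j => Ideal.Quotient.mk p (toV z j)) ∈ Pool.Agent.X243.Sol.Gev3 m N s (R ⧸ p)) :
    Good k N (poly k z.1) (poly k z.2) := by
  have h2k : (2 : k) ≠ 0 := by
    rw [← map_ofNat (algebraMap R k) 2]
    exact (map_ne_zero_iff _ (IsFractionRing.injective R k)).2 h2
  obtain ⟨h1, h3⟩ := Pool.Agent.X243.Gen.goodG (k := k) hmN (by omega : 3 ≤ N) h
    (poly k z.1) (poly k z.2)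
    (Pool.Agent.X243.Tate.bF_map (algebraMap R k) z.1).symm
    (Pool.Agent.X243.Tate.bF_map (algebraMap R k) z.2).symm
  refine ⟨⟨h1.1.1, h1.1.2, h1.2.1⟩, ⟨h3.1.1, h3.1.2, h3.2.1⟩, ?_, ?_⟩
  · intro L L' K F _ _ _ _ _ _ _ _ _ _ _ _ _ hT M hMn hM a1 a2
    exact holds_ext h2k hN h1 h3 hT M hMn hM a1 a2
  · intro L L' K F _ _ _ _ _ _ _ _ _ _ _ _ _ hT hM
    exact holds_solv h2k hN h1 h3 hT hM


end Pool.Agent.N140.RO.Two
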